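import Mathlib

namespace Pool.Agent.Results.MP_3301e6_mp.TorsionCurvature

open MvPolynomial

/-- Differential polynomials in `u^0,…,u^{N-1}`; `X (i, k)` is the `k`-th `x`-derivative of `u^i`. -/
abbrev Jet (N : ℕ) := MvPolynomial (Fin N × ℕ) ℝ

/-- total `x`-derivative -/
noncomputable def Dx (N : ℕ) : Derivation ℝ (Jet N) (Jet N) :=
  mkDerivation ℝ (fun p => X (p.1, p.2 + 1))

/-- time derivative along the evolution system `u^i_t = K i` -/
noncomputable def ev {N : ℕ} (K : Fin N → Jet N) : Derivation ℝ (Jet N) (Jet N) :=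
  mkDerivation ℝ (fun p => (Dx N)^[p.2] (K p.1))

/-- the flows `u_t = K` and `u_τ = L` commute -/
def FlowsCommute {N : ℕ} (K L : Fin N → Jet N) : Prop := ∀ i, ev K (L i) = ev L (K i)

/-- a function of `u`, seen as a function on jets -/
noncomputable def emb {N : ℕ} (p : MvPolynomial (Fin N) ℝ) : Jet N := rename (fun i => (i, 0)) p

/-- right-hand side of the third-order system with coefficients `α`, `β` -/
noncomputable def system {N : ℕ} (α : Fin N → Fin N → Fin N → MvPolynomial (Fin N) ℝ)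
    (β : Fin N → Fin N → Fin N → Fin N → MvPolynomial (Fin N) ℝ) (i : Fin N) : Jet N :=
  X (i, 3) + 3 * ∑ j, ∑ k, emb (α i j k) * X (j, 1) * X (k, 2)
    + ∑ j, ∑ k, ∑ m, emb (pderiv j (α i k m) + 2 * ∑ r, α i j r * α r k m
        - ∑ r, α i r j * α r k m + β i j k m) * X (j, 1) * X (k, 1) * X (m, 1)

/-- an infinite hierarchy of pairwise commuting higher symmetries
`u_τ = u_n + G(u, u_1, …, u_{n-1})` of arbitrarily high order `n` -/
def Integrable {N : ℕ} (K : Fin N → Jet N) : Prop :=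
  ∃ (n : ℕ → ℕ) (G : ℕ → Fin N → Jet N), StrictMono n ∧
    (∀ k i, G k i ∈ supported ℝ {p : Fin N × ℕ | p.2 < n k}) ∧
    (∀ k, FlowsCommute K (fun i => X (i, n k) + G k i)) ∧
    ∀ k l, FlowsCommute (fun i => X (i, n k) + G k i) (fun i => X (i, n l) + G l i)

/-- torsion of the connection `Γ^i_{jk} = α^i_{jk}` -/
noncomputable def torsion {N : ℕ} (α : Fin N → Fin N → Fin N → MvPolynomial (Fin N) ℝ)
    (i j k : Fin N) : MvPolynomial (Fin N) ℝ := α i j k - α i k j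

/-- curvature `R^i_{jkl}` of the connection `Γ^i_{jk} = α^i_{jk}` (last lower index = direction) -/
noncomputable def curvature {N : ℕ} (α : Fin N → Fin N → Fin N → MvPolynomial (Fin N) ℝ)
    (i j k l : Fin N) : MvPolynomial (Fin N) ℝ :=
  pderiv k (α i j l) - pderiv l (α i j k) + ∑ s, (α i s k * α s j l - α i s l * α s j k)

/-! ### The symbol calculus -/

section Symbol

variable {N r : ℕ}

/-- `ξ^m ↦ ∏ u^{c i}_{m i}` -/
noncomputable def Psi (c : Fin r → Fin N) : MvPolynomial (Fin r) ℝ →ₗ[ℝ] Jet N :=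
  (basisMonomials (Fin r) ℝ).constr ℝ (fun m => ∏ i, X (c i, m i))

lemma Psi_monomial (c : Fin r → Fin N) (m : Fin r →₀ ℕ) :
    Psi c (monomial m 1) = ∏ i, X (c i, m i) := by
  have := (basisMonomials (Fin r) ℝ).constr_basis ℝ (fun m => (∏ i, X (c i, m i) : Jet N)) m
  rw [coe_basisMonomials] at this
  exact this

lemma der_prod {ι : Type} [DecidableEq ι] (s : Finset ι) (f : ι → Jet N)
    (E : Derivation ℝ (Jet N) (Jet N)) :
    E (∏ i ∈ s, f i) = ∑ i ∈ s, (∏ j ∈ s.erase i, f j) * E (f i) := by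
  induction s using Finset.induction_on with
  | empty => simp
  | insert a s ha ih =>
    rw [Finset.prod_insert ha, Derivation.leibniz, ih, Finset.sum_insert ha,
      Finset.erase_insert ha, smul_eq_mul, smul_eq_mul, Finset.mul_sum, add_comm]
    congr 1
    apply Finset.sum_congr rfl
    intro i hi
    have hne : a ≠ i := fun h => ha (h ▸ hi)
    rw [Finset.erase_insert_of_ne hne, Finset.prod_insert (by simp [ha])]
    ring

lemma der_Psi (c : Fin r → Fin N) (n : ℕ) (E : Derivation ℝ (Jet N) (Jet N))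
    (hE : ∀ i k, E (X (c i, k)) = X (c i, k + n)) (f : MvPolynomial (Fin r) ℝ) :
    E (Psi c f) = Psi c ((∑ i, X i ^ n) * f) := by
  have h : (E : Jet N →ₗ[ℝ] Jet N) ∘ₗ Psi c
      = Psi c ∘ₗ LinearMap.mulLeft ℝ (∑ i, X i ^ n) := by
    apply (basisMonomials (Fin r) ℝ).ext
    intro m
    simp only [coe_basisMonomials, LinearMap.comp_apply, Derivation.coeFn_coe,
      LinearMap.mulLeft_apply, Psi_monomial, Finset.sum_mul, map_sum]
    rw [der_prod]
    apply Finset.sum_congr rfl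
    intro i _
    rw [hE, X_pow_eq_monomial, monomial_mul, one_mul, Psi_monomial,
      ← Finset.mul_prod_erase Finset.univ _ (Finset.mem_univ i), mul_comm]
    congr 1
    · simp [add_comm]
    · apply Finset.prod_congr rfl
      intro j hj
      have : j ≠ i := Finset.ne_of_mem_erase hj
      simp [Ne.symm this]
  exact congrArg (fun L : MvPolynomial (Fin r) ℝ →ₗ[ℝ] Jet N => L f) h


end Symbol

section Quot

variable {R : Type} [CommRing R]

/-- quotient of `(x+y+z)^(2k+1) - x^(2k+1) - y^(2k+1) - z^(2k+1)` by `(x+y)(y+z)(z+x)` -/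
def qt (x y z : R) : ℕ → R
  | 0 => 0
  | 1 => 3
  | 2 => 5 * (x ^ 2 + y ^ 2 + z ^ 2 + x * y + y * z + z * x)
  | 3 => 7 * ((x ^ 2 + y ^ 2 + z ^ 2 + x * y + y * z + z * x) ^ 2 + x * y * z * (x + y + z))
  | (k + 4) =>
      (x ^ 2 + y ^ 2 + z ^ 2 + (x + y + z) ^ 2) * qt x y z (k + 3)
      - (x ^ 2 * y ^ 2 + y ^ 2 * z ^ 2 + z ^ 2 * x ^ 2
          + (x + y + z) ^ 2 * (x ^ 2 + y ^ 2 + z ^ 2)) * qt x y z (k + 2)
      + (x ^ 2 * y ^ 2 * z ^ 2
          + (x + y + z) ^ 2 * (x ^ 2 * y ^ 2 + y ^ 2 * z ^ 2 + z ^ 2 * x ^ 2)) * qt x y z (k + 1)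
      - ((x + y + z) ^ 2 * (x ^ 2 * y ^ 2 * z ^ 2)) * qt x y z k

lemma qt_spec (x y z : R) (k : ℕ) : (x + y) * (y + z) * (z + x) * qt x y z k
    = (x + y + z) ^ (2 * k + 1) - (x ^ (2 * k + 1) + y ^ (2 * k + 1) + z ^ (2 * k + 1)) := by
  have key : ∀ k : ℕ,
      ((x + y) * (y + z) * (z + x) * qt x y z k
        = (x + y + z) ^ (2 * k + 1) - (x ^ (2 * k + 1) + y ^ (2 * k + 1) + z ^ (2 * k + 1))) ∧
      ((x + y) * (y + z) * (z + x) * qt x y z (k + 1)
        = (x + y + z) ^ (2 * k + 3) - (x ^ (2 * k + 3) + y ^ (2 * k + 3) + z ^ (2 * k + 3))) ∧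
      ((x + y) * (y + z) * (z + x) * qt x y z (k + 2)
        = (x + y + z) ^ (2 * k + 5) - (x ^ (2 * k + 5) + y ^ (2 * k + 5) + z ^ (2 * k + 5))) ∧
      ((x + y) * (y + z) * (z + x) * qt x y z (k + 3)
        = (x + y + z) ^ (2 * k + 7) - (x ^ (2 * k + 7) + y ^ (2 * k + 7) + z ^ (2 * k + 7))) := by
    intro k
    induction k with
    | zero => refine ⟨?_, ?_, ?_, ?_⟩ <;> simp only [qt] <;> ring
    | succ k ih =>
      obtain ⟨h0, h1, h2, h3⟩ := ih
      refine ⟨?_, ?_, ?_, ?_⟩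
      · rw [h1]; ring
      · rw [show k + 1 + 1 = k + 2 by ring, h2]; ring
      · rw [show k + 1 + 2 = k + 3 by ring, h3]; ring
      · rw [show k + 1 + 3 = k + 4 by ring, qt]
        linear_combination (x ^ 2 + y ^ 2 + z ^ 2 + (x + y + z) ^ 2) * h3
          - (x ^ 2 * y ^ 2 + y ^ 2 * z ^ 2 + z ^ 2 * x ^ 2
            + (x + y + z) ^ 2 * (x ^ 2 + y ^ 2 + z ^ 2)) * h2
          + (x ^ 2 * y ^ 2 * z ^ 2
            + (x + y + z) ^ 2 * (x ^ 2 * y ^ 2 + y ^ 2 * z ^ 2 + z ^ 2 * x ^ 2)) * h1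
          - ((x + y + z) ^ 2 * (x ^ 2 * y ^ 2 * z ^ 2)) * h0
  exact (key k).1

end Quot

lemma hom_ofNat {σ : Type} (n : ℕ) [n.AtLeastTwo] :
    IsHomogeneous (OfNat.ofNat n : MvPolynomial σ ℝ) 0 := by
  rw [← map_ofNat (C : ℝ →+* MvPolynomial σ ℝ) n]
  exact isHomogeneous_C _ _

lemma qt_hom {σ : Type} (x y z : MvPolynomial σ ℝ) (hx : IsHomogeneous x 1)
    (hy : IsHomogeneous y 1) (hz : IsHomogeneous z 1) (k : ℕ) :
    IsHomogeneous (qt x y z (k + 1)) (2 * k) := by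
  have x2 : IsHomogeneous (x ^ 2) 2 := by simpa using hx.pow 2
  have y2 : IsHomogeneous (y ^ 2) 2 := by simpa using hy.pow 2
  have z2 : IsHomogeneous (z ^ 2) 2 := by simpa using hz.pow 2
  have s1 : IsHomogeneous (x + y + z) 1 := (hx.add hy).add hz
  have s2 : IsHomogeneous ((x + y + z) ^ 2) 2 := by simpa using s1.pow 2
  have xy : IsHomogeneous (x * y) 2 := hx.mul hy
  have yz : IsHomogeneous (y * z) 2 := hy.mul hz
  have zx : IsHomogeneous (z * x) 2 := hz.mul hx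
  have a : IsHomogeneous (x ^ 2 + y ^ 2 + z ^ 2 + x * y + y * z + z * x) 2 :=
    ((((x2.add y2).add z2).add xy).add yz).add zx
  have c1 : IsHomogeneous (x ^ 2 + y ^ 2 + z ^ 2 + (x + y + z) ^ 2) 2 :=
    ((x2.add y2).add z2).add s2
  have e2 : IsHomogeneous (x ^ 2 * y ^ 2 + y ^ 2 * z ^ 2 + z ^ 2 * x ^ 2) 4 :=
    ((x2.mul y2).add (y2.mul z2)).add (z2.mul x2)
  have e3 : IsHomogeneous (x ^ 2 * y ^ 2 * z ^ 2) 6 := (x2.mul y2).mul z2
  have c2 : IsHomogeneous (x ^ 2 * y ^ 2 + y ^ 2 * z ^ 2 + z ^ 2 * x ^ 2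
          + (x + y + z) ^ 2 * (x ^ 2 + y ^ 2 + z ^ 2)) 4 :=
    e2.add (s2.mul ((x2.add y2).add z2))
  have c3 : IsHomogeneous (x ^ 2 * y ^ 2 * z ^ 2
          + (x + y + z) ^ 2 * (x ^ 2 * y ^ 2 + y ^ 2 * z ^ 2 + z ^ 2 * x ^ 2)) 6 :=
    e3.add (s2.mul e2)
  have c4 : IsHomogeneous ((x + y + z) ^ 2 * (x ^ 2 * y ^ 2 * z ^ 2)) 8 := s2.mul e3
  have key : ∀ k : ℕ, IsHomogeneous (qt x y z (k + 1)) (2 * k) ∧
      IsHomogeneous (qt x y z (k + 2)) (2 * k + 2) ∧
      IsHomogeneous (qt x y z (k + 3)) (2 * k + 4) ∧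
      IsHomogeneous (qt x y z (k + 4)) (2 * k + 6) := by
    intro k
    induction k with
    | zero =>
      have q1 : IsHomogeneous (qt x y z 1) 0 := by rw [qt]; exact hom_ofNat 3
      have q2 : IsHomogeneous (qt x y z 2) 2 := by
        rw [qt]; simpa using (hom_ofNat 5).mul a
      have q3 : IsHomogeneous (qt x y z 3) 4 := by
        rw [qt]
        have a2 : IsHomogeneous ((x ^ 2 + y ^ 2 + z ^ 2 + x * y + y * z + z * x) ^ 2) 4 := by
          simpa using a.pow 2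
        simpa using (hom_ofNat 7).mul (a2.add (((hx.mul hy).mul hz).mul s1))
      refine ⟨q1, q2, q3, ?_⟩
      have h4 : qt x y z (0 + 4) = (x ^ 2 + y ^ 2 + z ^ 2 + (x + y + z) ^ 2) * qt x y z 3
          - (x ^ 2 * y ^ 2 + y ^ 2 * z ^ 2 + z ^ 2 * x ^ 2
              + (x + y + z) ^ 2 * (x ^ 2 + y ^ 2 + z ^ 2)) * qt x y z 2
          + (x ^ 2 * y ^ 2 * z ^ 2
              + (x + y + z) ^ 2 * (x ^ 2 * y ^ 2 + y ^ 2 * z ^ 2 + z ^ 2 * x ^ 2)) * qt x y z 1
          - ((x + y + z) ^ 2 * (x ^ 2 * y ^ 2 * z ^ 2)) * 0 := rfl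
      rw [h4, mul_zero, sub_zero]
      exact ((c1.mul q3).sub (c2.mul q2)).add (c3.mul q1)
    | succ k ih =>
      obtain ⟨h1, h2, h3, h4⟩ := ih
      refine ⟨by simpa [mul_add] using h2, by simpa [mul_add] using h3,
        by simpa [mul_add] using h4, ?_⟩
      rw [show k + 1 + 4 = (k + 1) + 4 by ring, qt]
      have e1 := c1.mul h4
      have e2 := c2.mul h3
      have e3 := c3.mul h2
      have e4 := c4.mul h1
      rw [show 2 + (2 * k + 6) = 2 * (k + 1) + 6 by ring] at e1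
      rw [show 4 + (2 * k + 4) = 2 * (k + 1) + 6 by ring] at e2
      rw [show 6 + (2 * k + 2) = 2 * (k + 1) + 6 by ring] at e3
      rw [show 8 + (2 * k) = 2 * (k + 1) + 6 by ring] at e4
      exact ((e1.sub e2).add e3).sub e4
  exact (key k).1


/-- exponents occurring in `x y h`, of total degree `n`, are `< n` -/
lemma supp_bound {r : ℕ} (a b : Fin r) (hab : a ≠ b) (h : MvPolynomial (Fin r) ℝ) (n : ℕ)
    (hh : IsHomogeneous (X a * (X b * h)) n) (m : Fin r →₀ ℕ)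
    (hm : m ∈ (X a * (X b * h)).support) (i : Fin r) : m i < n := by
  have hc : coeff m (X a * (X b * h)) ≠ 0 := mem_support_iff.1 hm
  have hdeg := hh hc
  have ha : m a ≠ 0 := by
    intro h0
    apply hc
    rw [coeff_X_mul', if_neg]
    simpa using h0
  have hb : m b ≠ 0 := by
    intro h0
    apply hc
    rw [show X a * (X b * h) = X b * (X a * h) by ring, coeff_X_mul', if_neg]
    simpa using h0
  rw [Finsupp.weight_apply, Finsupp.sum_fintype _ _ (by simp)] at hdeg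
  simp only [Pi.one_apply, smul_eq_mul, mul_one] at hdeg
  by_cases hia : i = a
  · subst hia
    have h1 : m i + m b ≤ ∑ j, m j := by
      rw [← Finset.add_sum_erase _ _ (Finset.mem_univ i)]
      have : m b ≤ ∑ j ∈ Finset.univ.erase i, m j :=
        Finset.single_le_sum (f := fun j => m j) (fun _ _ => Nat.zero_le _)
          (Finset.mem_erase.2 ⟨hab.symm, Finset.mem_univ _⟩)
      omega
    omega
  · have h1 : m i + m a ≤ ∑ j, m j := by
      rw [← Finset.add_sum_erase _ _ (Finset.mem_univ i)]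
      have : m a ≤ ∑ j ∈ Finset.univ.erase i, m j :=
        Finset.single_le_sum (f := fun j => m j) (fun _ _ => Nat.zero_le _)
          (Finset.mem_erase.2 ⟨fun h => hia h.symm, Finset.mem_univ _⟩)
      omega
    omega

lemma Psi_supported {N r : ℕ} (c : Fin r → Fin N) (f : MvPolynomial (Fin r) ℝ) (n : ℕ)
    (hf : ∀ m ∈ f.support, ∀ i, m i < n) :
    Psi c f ∈ supported ℝ {p : Fin N × ℕ | p.2 < n} := by
  rw [f.as_sum, map_sum]
  apply Subalgebra.sum_mem
  intro m hm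
  have : (monomial m) (coeff m f) = (coeff m f) • (monomial m (1 : ℝ)) := by
    rw [smul_monomial, smul_eq_mul, mul_one]
  rw [this, map_smul, Psi_monomial]
  apply Subalgebra.smul_mem
  apply Subalgebra.prod_mem
  intro i _
  rw [X_mem_supported]
  exact hf m hm i

lemma iter_Dx_Psi {N r : ℕ} (c : Fin r → Fin N) (k : ℕ) (f : MvPolynomial (Fin r) ℝ) :
    (Dx N)^[k] (Psi c f) = Psi c ((∑ i, X i) ^ k * f) := by
  induction k generalizing f with
  | zero => simp
  | succ k ih =>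
    have h1 : ∀ f, Dx N (Psi c f) = Psi c ((∑ i, X i) * f) := by
      intro f
      have := der_Psi c 1 (Dx N) (fun i k => by simp [Dx]) f
      simpa using this
    rw [Function.iterate_succ_apply, h1, ih, pow_succ]
    congr 1
    ring


lemma Psi_prod {N r : ℕ} (c : Fin r → Fin N) (e : Fin r → ℕ) :
    Psi c (∏ i, X i ^ e i) = ∏ i, X (c i, e i) := by
  have h : (∏ i, X i ^ e i : MvPolynomial (Fin r) ℝ)
      = monomial (Finsupp.equivFunOnFinite.symm e) 1 := by
    rw [monomial_eq, C_1, one_mul, Finsupp.prod_fintype _ _ (by simp)]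
    simp
  rw [h, Psi_monomial]
  simp

/-- the colours of the quadratic terms (`u`, `w`) -/
def c2 : Fin 2 → Fin 3 := ![0, 1]

/-- the colours of the cubic terms (`u`, `u`, `w`) -/
def c3 : Fin 3 → Fin 3 := ![0, 0, 1]

/-- symbol of the quadratic part of the flow of order `2k+1` -/
noncomputable def f2 (k : ℕ) : MvPolynomial (Fin 2) ℝ :=
  X 0 * (X 1 * (qt (X 0) (X 1) 0 k * X 1))

/-- symbol of the cubic part of the flow of order `2k+1` -/
noncomputable def f3 (k : ℕ) : MvPolynomial (Fin 3) ℝ :=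
  X 0 * (X 1 * (qt (X 0) (X 1) (X 2) k * (X 1 + C (1 / 3) * X 2)))

/-- lower-order part of the flow of order `2k+1` -/
noncomputable def Gk (k : ℕ) : Fin 3 → Jet 3 :=
  ![0, 0, Psi c2 (f2 k) + Psi c3 (f3 k)]

/-- the flow of order `2k+1` -/
noncomputable def Fk (k : ℕ) : Fin 3 → Jet 3 := fun i => X (i, 2 * k + 1) + Gk k i

lemma iter_Dx_X {N : ℕ} (k : ℕ) (i : Fin N) (j : ℕ) :
    (Dx N)^[k] (X (i, j)) = X (i, j + k) := by
  induction k generalizing j with
  | zero => rfl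
  | succ k ih =>
    rw [Function.iterate_succ_apply]
    have : Dx N (X (i, j)) = X (i, j + 1) := by simp [Dx]
    rw [this, ih]
    congr 2
    omega

lemma iter_Dx_add {N : ℕ} (k : ℕ) (p q : Jet N) :
    (Dx N)^[k] (p + q) = (Dx N)^[k] p + (Dx N)^[k] q := by
  induction k generalizing p q with
  | zero => rfl
  | succ k ih => simp only [Function.iterate_succ_apply, map_add, ih]

lemma ev_X {N : ℕ} (K : Fin N → Jet N) (i : Fin N) (j : ℕ) :
    ev K (X (i, j)) = (Dx N)^[j] (K i) := by simp [ev]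

lemma ev_Fk_base (k : ℕ) (i : Fin 3) (hi : i = 0 ∨ i = 1) (j : ℕ) :
    ev (Fk k) (X (i, j)) = X (i, j + (2 * k + 1)) := by
  rw [ev_X]
  have : Fk k i = X (i, 2 * k + 1) := by
    rcases hi with rfl | rfl <;> simp [Fk, Gk]
  rw [this, iter_Dx_X]
  congr 2
  omega

lemma ev_Fk_c2 (k : ℕ) (f : MvPolynomial (Fin 2) ℝ) :
    ev (Fk k) (Psi c2 f) = Psi c2 ((∑ i, X i ^ (2 * k + 1)) * f) := by
  apply der_Psi
  intro i j
  apply ev_Fk_base
  fin_cases i <;> simp [c2]

lemma ev_Fk_c3 (k : ℕ) (f : MvPolynomial (Fin 3) ℝ) :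
    ev (Fk k) (Psi c3 f) = Psi c3 ((∑ i, X i ^ (2 * k + 1)) * f) := by
  apply der_Psi
  intro i j
  apply ev_Fk_base
  fin_cases i <;> simp [c3]

lemma commute_Fk (k l : ℕ) : FlowsCommute (Fk k) (Fk l) := by
  intro i
  by_cases hi : i = 0 ∨ i = 1
  · have e1 : ∀ k, Fk k i = X (i, 2 * k + 1) := by
      intro k
      rcases hi with rfl | rfl <;> simp [Fk, Gk]
    rw [e1, e1, ev_Fk_base k i hi, ev_Fk_base l i hi]
    congr 2
    omega
  · have hi2 : i = 2 := by
      fin_cases i <;> simp at hi ⊢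
    subst hi2
    have e2 : ∀ k, Fk k 2 = X (2, 2 * k + 1) + (Psi c2 (f2 k) + Psi c3 (f3 k)) := by
      intro k
      simp [Fk, Gk]
    have e3 : ∀ k l, ev (Fk k) (Fk l 2) = X (2, 2 * k + 1 + (2 * l + 1))
        + (Psi c2 ((∑ i, X i) ^ (2 * l + 1) * f2 k + (∑ i, X i ^ (2 * k + 1)) * f2 l)
          + Psi c3 ((∑ i, X i) ^ (2 * l + 1) * f3 k + (∑ i, X i ^ (2 * k + 1)) * f3 l)) := by
      intro k l
      rw [e2 l, map_add, map_add, ev_Fk_c2, ev_Fk_c3, ev_X, e2 k, iter_Dx_add, iter_Dx_add,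
        iter_Dx_X, iter_Dx_Psi, iter_Dx_Psi, map_add, map_add]
      ring
    have hA : (∑ i, X i) ^ (2 * l + 1) * f2 k + (∑ i, X i ^ (2 * k + 1)) * f2 l
        = (∑ i, X i) ^ (2 * k + 1) * f2 l + (∑ i, X i ^ (2 * l + 1)) * f2 k := by
      rw [f2, f2, Fin.sum_univ_two, Fin.sum_univ_two, Fin.sum_univ_two]
      have h1 := qt_spec (X 0 : MvPolynomial (Fin 2) ℝ) (X 1) 0 k
      have h2 := qt_spec (X 0 : MvPolynomial (Fin 2) ℝ) (X 1) 0 l
      simp only [add_zero, zero_add, zero_pow (show 2 * k + 1 ≠ 0 by omega),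
        zero_pow (show 2 * l + 1 ≠ 0 by omega)] at h1 h2
      linear_combination (- X 0 * X 1 ^ 2 * qt (X 0 : MvPolynomial (Fin 2) ℝ) (X 1) 0 k) * h2
        + (X 0 * X 1 ^ 2 * qt (X 0 : MvPolynomial (Fin 2) ℝ) (X 1) 0 l) * h1
    have hB : (∑ i, X i) ^ (2 * l + 1) * f3 k + (∑ i, X i ^ (2 * k + 1)) * f3 l
        = (∑ i, X i) ^ (2 * k + 1) * f3 l + (∑ i, X i ^ (2 * l + 1)) * f3 k := by
      rw [f3, f3, Fin.sum_univ_three, Fin.sum_univ_three, Fin.sum_univ_three]
      have h1 := qt_spec (X 0 : MvPolynomial (Fin 3) ℝ) (X 1) (X 2) k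
      have h2 := qt_spec (X 0 : MvPolynomial (Fin 3) ℝ) (X 1) (X 2) l
      linear_combination (- X 0 * X 1 * qt (X 0 : MvPolynomial (Fin 3) ℝ) (X 1) (X 2) k
          * (X 1 + C (1 / 3) * X 2)) * h2
        + (X 0 * X 1 * qt (X 0 : MvPolynomial (Fin 3) ℝ) (X 1) (X 2) l
          * (X 1 + C (1 / 3) * X 2)) * h1
    rw [e3, e3, hA, hB, show 2 * k + 1 + (2 * l + 1) = 2 * l + 1 + (2 * k + 1) by ring]

lemma Gk_supported (k : ℕ) (i : Fin 3) :
    Gk (k + 1) i ∈ supported ℝ {p : Fin 3 × ℕ | p.2 < 2 * (k + 1) + 1} := by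
  fin_cases i
  · simp [Gk]
  · simp [Gk]
  · simp only [Gk]
    apply Subalgebra.add_mem
    · apply Psi_supported
      intro m hm i
      apply supp_bound 0 1 (by decide) _ _ _ m hm i
      have h := (isHomogeneous_X ℝ (0 : Fin 2)).mul ((isHomogeneous_X ℝ (1 : Fin 2)).mul
        ((qt_hom (X 0 : MvPolynomial (Fin 2) ℝ) (X 1) 0 (isHomogeneous_X _ _)
          (isHomogeneous_X _ _) (isHomogeneous_zero _ _ _) k).mul (isHomogeneous_X ℝ (1 : Fin 2))))
      convert h using 1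
      ring
    · apply Psi_supported
      intro m hm i
      apply supp_bound 0 1 (by decide) _ _ _ m hm i
      have hC : IsHomogeneous (C (1 / 3) * X 2 : MvPolynomial (Fin 3) ℝ) 1 := by
        simpa using (isHomogeneous_C (Fin 3) (1 / 3 : ℝ)).mul (isHomogeneous_X ℝ (2 : Fin 3))
      have h := (isHomogeneous_X ℝ (0 : Fin 3)).mul ((isHomogeneous_X ℝ (1 : Fin 3)).mul
        ((qt_hom (X 0 : MvPolynomial (Fin 3) ℝ) (X 1) (X 2) (isHomogeneous_X _ _)
          (isHomogeneous_X _ _) (isHomogeneous_X _ _) k).mul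
            ((isHomogeneous_X ℝ (1 : Fin 3)).add hC)))
      convert h using 1
      ring

/-- the connection coefficients: `α^v_{uw} = 1`, `α^v_{uu} = w` (indices `u=0`, `w=1`, `v=2`) -/
noncomputable def alpha : Fin 3 → Fin 3 → Fin 3 → MvPolynomial (Fin 3) ℝ :=
  fun i j k => if i = 2 ∧ j = 0 ∧ k = 1 then 1 else if i = 2 ∧ j = 0 ∧ k = 0 then X 1 else 0

lemma system_alpha : system alpha (fun _ _ _ _ => 0) = Fk 1 := by
  funext i
  fin_cases i
  · simp [system, alpha, Fk, Gk, emb]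
  · simp [system, alpha, Fk, Gk, emb]
  · have h2 : Psi c2 (f2 1) = 3 * (X (0, 1) * X (1, 2)) := by
      have e : f2 1 = (3 : ℝ) • ∏ i, X i ^ (![1, 2] : Fin 2 → ℕ) i := by
        simp only [f2, qt, Fin.prod_univ_two, smul_eq_C_mul, map_ofNat]
        simp
        ring
      rw [e, map_smul, Psi_prod, Fin.prod_univ_two, smul_eq_C_mul, map_ofNat]
      simp [c2]
    have h3 : Psi c3 (f3 1) = 3 * (X (0, 1) * X (0, 2) * X (1, 0))
        + X (0, 1) * X (0, 1) * X (1, 1) := by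
      have e : f3 1 = (3 : ℝ) • ∏ i, X i ^ (![1, 2, 0] : Fin 3 → ℕ) i
          + ∏ i, X i ^ (![1, 1, 1] : Fin 3 → ℕ) i := by
        simp only [f3, qt, Fin.prod_univ_three, smul_eq_C_mul, map_ofNat]
        have h13 : (3 : MvPolynomial (Fin 3) ℝ) * C (3⁻¹) = 1 := by
          rw [← map_ofNat (C : ℝ →+* MvPolynomial (Fin 3) ℝ) 3, ← C_mul]; norm_num
        simp
        linear_combination (X 0 * X 1 * X 2) * h13
      rw [e, map_add, map_smul, Psi_prod, Psi_prod, Fin.prod_univ_three, Fin.prod_univ_three,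
        smul_eq_C_mul, map_ofNat]
      simp [c3]
    simp [system, alpha, Fk, Gk, emb, Fin.sum_univ_three, h2, h3]
    ring


lemma integrable_Fk : Integrable (Fk 1) := by
  refine ⟨fun k => 2 * (k + 1) + 1, fun k => Gk (k + 1), ?_, ?_, ?_, ?_⟩
  · intro a b hab
    simp only
    omega
  · exact fun k i => Gk_supported k i
  · exact fun k => commute_Fk 1 (k + 1)
  · exact fun k l => commute_Fk (k + 1) (l + 1)

/-- **Disproof of Q1.** A third-order system of geometric type with an infinite hierarchy of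
commuting higher symmetries whose connection has torsion and curvature that vanish nowhere. -/
theorem result : ∃ (N : ℕ) (α : Fin N → Fin N → Fin N → MvPolynomial (Fin N) ℝ)
    (β : Fin N → Fin N → Fin N → Fin N → MvPolynomial (Fin N) ℝ),
    (∀ i j k m, β i j k m = β i k j m ∧ β i j k m = β i j m k) ∧
    Integrable (system α β) ∧
    ∃ i, (∃ j k, ∀ x, eval x (torsion α i j k) ≠ 0) ∧
      (∃ j k l, ∀ x, eval x (curvature α i j k l) ≠ 0) ∧
      (∃ j k l, ∀ x, eval x (curvature (fun i j k => α i k j) i j k l) ≠ 0) := by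
  refine ⟨3, alpha, fun _ _ _ _ => 0, fun _ _ _ _ => ⟨rfl, rfl⟩, ?_, 2, ⟨0, 1, ?_⟩,
    ⟨0, 0, 1, ?_⟩, ⟨0, 0, 1, ?_⟩⟩
  · rw [system_alpha]
    exact integrable_Fk
  · intro x
    simp [torsion, alpha]
  · intro x
    simp [curvature, alpha]
  · intro x
    simp [curvature, alpha]

end Pool.Agent.Results.MP_3301e6_mp.TorsionCurvature
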